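import Mathlib
import Pool.Agent.V11185.PPackH

set_option autoImplicit false

namespace Pool.Agent.Results.MP_0e9c37_co.AboveOneSixth

open Filter Topology

/-- The finite sets `A i` (`i ∈ I`) of positive integers pack into `[m] = {1, ..., m}`: there are
integers `s i` such that all the translates `s i + A i` lie in `{1, ..., m}` and are pairwise
disjoint. -/
def PacksInto {ι : Type*} (I : Finset ι) (A : ι → Finset ℕ) (m : ℕ) : Prop :=
  ∃ s : ι → ℤ, (∀ i ∈ I, ∀ a ∈ A i, 1 ≤ s i + (a : ℤ) ∧ s i + (a : ℤ) ≤ (m : ℤ)) ∧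
    ∀ i ∈ I, ∀ j ∈ I, i ≠ j → ∀ a ∈ A i, ∀ b ∈ A j, s i + (a : ℤ) ≠ s j + (b : ℤ)

/-- The progression `B_d = {d, 2d, ..., nd}`. -/
def B (n d : ℕ) : Finset ℕ := (Finset.Icc 1 n).image (fun j => j * d)

/-- The least `m` such that the progressions `B_1, ..., B_n` pack into `[m]`. -/
noncomputable def M (n : ℕ) : ℕ := sInf {m : ℕ | PacksInto (Finset.Icc 1 n) (B n) m}

/-- `M n` is really the least `m` for which the family packs into `[m]`;
`liminf M n * log n / n ^ 3 ≥ 19 / 108 = 1 / 6 + 1 / 108`; and hence `M n * log n / n ^ 3` does not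
tend to `1 / 6`. -/
theorem result :
    (∀ n : ℕ, IsLeast {m : ℕ | PacksInto (Finset.Icc 1 n) (B n) m} (M n)) ∧
    (∀ ε : ℝ, 0 < ε → ∀ᶠ n : ℕ in atTop,
      19 / 108 - ε < (M n : ℝ) * Real.log n / (n : ℝ) ^ 3) ∧
    ¬ Tendsto (fun n : ℕ => (M n : ℝ) * Real.log n / (n : ℝ) ^ 3) atTop (𝓝 (1 / 6)) := by
  have h : ∀ n : ℕ, IsLeast {m : ℕ | PacksInto (Finset.Icc 1 n) (B n) m} (M n) := fun n =>
    Pool.Agent.V11185.PPack.isLeast_sInf (P := Finset.Icc 1 n) (N := fun _ => n)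
      (fun p hp => (Finset.mem_Icc.1 hp).1)
  exact ⟨h, Pool.Agent.V11185.PPack.all_liminf h, Pool.Agent.V11185.PPack.all_not_tendsto h⟩

end Pool.Agent.Results.MP_0e9c37_co.AboveOneSixth
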